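import Pool.Agent.X320.DS.AlgDep

/-!
# The Fontaine-Mazur conjecture and algebraic dependence of traces of Frobenius elements

Let `K` be a number field, `F` a Hausdorff topological field of characteristic zero (for instance `ℚ_p`), and let
`ρ : G_K → GL_n(F)` and `θ : G_K → GL_m(F)` be continuous, `ρ` irreducible. Suppose that for a set of places `v` of
lower density `> 1 - 1/n²` the trace of `ρ (Frob_v)` is one of the values at `θ (Frob_v)` of finitely many polynomial
functions on `GL_m`. Then `ρ` is a subquotient of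

  `F[G_K/H] ⊗ W^{⊗ a} ⊗ (W^*)^{⊗ b}`

for some open normal subgroup `H` and some `a`, `b`, where `W` is the space of `θ`. So if `θ` is a Tate twist of a
subquotient of the cohomology of a smooth projective variety `X`, the same is true for `ρ` (with the
product of a power of `X` and the spectrum of a finite extension of `K`, by the Künneth formula and Poincaré duality):
the Fontaine-Mazur conjecture holds for `ρ`. Nothing is assumed about ramification or about `ρ` at the places above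
`p`. For `m = 1`: if the traces are `a χ (Frob_v) ^ e` with finitely many pairs `(a, e)`, then
`ρ = χ ^ e ⊗` (finite image) for some `e`; if `χ` is the cyclotomic character, `ρ` is a Tate twist of an Artin
representation.

The bound `1 - 1/n²` does not depend on `θ`, on the polynomials or on the groups of components of the Zariski
closures of the images.

Idea of the proof: `ρ x = ∑ tr (ρ (g_i x)) B_i` with at most `n²` elements `g_i` and matrices `B_i` (Burnside). By
Chebotarev's theorem the set of the `x` such that all `g_i x` satisfy one of the equations has positive Haar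
measure. So there is a set of positive measure on which `ρ` is given by one polynomial matrix in `θ`. Choose a
minimal Zariski closed subset of positive measure in it. Two different translates of it meet in a set of measure zero,
and hence it has only finitely many translates: it is a union of cosets of an open subgroup.
-/

set_option autoImplicit false
set_option linter.unusedSectionVars false

namespace Pool.Agent.Results.MP_f68ac8_nt.AlgebraicDependence

open NumberField IsDedekindDomain Filter Matrix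
open Pool.Agent.W401.Cheb (GK IsFrob dens)

/-- representations of the group `G` by `n × n` matrices over `F` -/
abbrev Rep (G F : Type) [Group G] [Field F] (n : ℕ) : Type := G →* GL (Fin n) F

/-- polynomials in the `m ^ 2` entries of a matrix and the `m ^ 2` entries of its inverse -/
abbrev Poly (F : Type) [Field F] (m : ℕ) : Type := MvPolynomial ((Fin m × Fin m) ⊕ (Fin m × Fin m)) F

section

variable {G : Type} [Group G] {F : Type} [Field F] {n m : ℕ}

/-- the matrix of `g` -/
abbrev mat (ρ : Rep G F n) (g : G) : Matrix (Fin n) (Fin n) F := (ρ g : Matrix (Fin n) (Fin n) F)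

/-- the subspace `W` is stable under `ρ` -/
def Stable (ρ : Rep G F n) (W : Submodule F (Fin n → F)) : Prop := ∀ g, ∀ w ∈ W, mat ρ g *ᵥ w ∈ W

/-- `ρ` is semisimple: every stable subspace has a stable complement -/
def Semisimple (ρ : Rep G F n) : Prop := ∀ W, Stable ρ W → ∃ W', Stable ρ W' ∧ IsCompl W W'

/-- `ρ` is irreducible -/
def Irreducible (ρ : Rep G F n) : Prop := 0 < n ∧ ∀ W, Stable ρ W → W = ⊥ ∨ W = ⊤

/-- the value at `g` of a polynomial in the entries of `θ g` and of its inverse -/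
noncomputable def value (θ : Rep G F m) (P : Poly F m) (g : G) : F :=
  MvPolynomial.eval (Sum.elim (fun s => mat θ g s.1 s.2) (fun s => mat θ g⁻¹ s.1 s.2)) P

/-- the space `F[G/H] ⊗ W^{⊗ a} ⊗ (W^*)^{⊗ b}` for `W = F ^ m`, as the space of functions on
`(G ⧸ H) × {1, ..., m} ^ a × {1, ..., m} ^ b` -/
abbrev Tensors (F : Type) (H : Subgroup G) (m a b : ℕ) : Type :=
  (G ⧸ H) × (Fin a → Fin m) × (Fin b → Fin m) → F

/-- The action of `g` on the space `F[G/H] ⊗ W^{⊗ a} ⊗ (W^*)^{⊗ b}`, where `W = F ^ m` with the action `θ`. -/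
noncomputable def tensorAction (θ : Rep G F m) {H : Subgroup G} {a b : ℕ} (g : G)
    (T : Tensors F H m a b) : Tensors F H m a b :=
  fun p => ∑ i, ∑ j, (∏ k, mat θ g (p.2.1 k) (i k)) * (∏ l, mat θ g⁻¹ (j l) (p.2.2 l)) * T (g⁻¹ • p.1, i, j)

/-- the combination `c u + v` -/
def comb {G F : Type} [Group G] [Field F] {H : Subgroup G} {m a b : ℕ} (c : F) (u v : Tensors F H m a b) :
    Tensors F H m a b := fun p => c * u p + v p

/-- `ρ` is a subquotient of `F[G/H] ⊗ W^{⊗ a} ⊗ (W^*)^{⊗ b}`: there is a stable subspace `S` with an equivariant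
linear surjection `π` to the space of `ρ`. -/
def IsSubquotient (ρ : Rep G F n) (θ : Rep G F m) (H : Subgroup G) (a b : ℕ) : Prop :=
  ∃ (S : Set (Tensors F H m a b)) (π : Tensors F H m a b → (Fin n → F)),
    (∀ c, ∀ u ∈ S, ∀ v ∈ S, comb c u v ∈ S ∧ π (comb c u v) = c • π u + π v) ∧
    (∀ g, ∀ u ∈ S, tensorAction θ g u ∈ S ∧ π (tensorAction θ g u) = mat ρ g *ᵥ π u) ∧
    ∀ w, ∃ u ∈ S, π u = w

theorem isSubquotient_iff (ρ : Rep G F n) (θ : Rep G F m) (H : Subgroup G) (a b : ℕ)
    (h : ∃ (S : Submodule F (Tensors F H m a b)) (π : S →ₗ[F] (Fin n → F)), Function.Surjective π ∧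
    ∀ g (u : S), ∃ h : tensorAction θ g u.1 ∈ S, π ⟨tensorAction θ g u.1, h⟩ = mat ρ g *ᵥ π u) :
    IsSubquotient ρ θ H a b := by
  classical
  obtain ⟨S, π, hπ, hS⟩ := h
  have hcomb : ∀ (c : F) (u v : Tensors F H m a b), comb c u v = c • u + v := fun _ _ _ => rfl
  refine ⟨S, fun u => if hu : u ∈ S then π ⟨u, hu⟩ else 0, fun c u hu v hv => ?_, fun g u hu => ?_, fun w => ?_⟩
  · have h1 : comb c u v ∈ S := by
      rw [hcomb]
      exact S.add_mem (S.smul_mem c hu) hv
    refine ⟨h1, ?_⟩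
    have hu' : u ∈ S := hu
    have hv' : v ∈ S := hv
    simp only [dif_pos h1, dif_pos hu', dif_pos hv']
    rw [← map_smul, ← map_add]
    rfl
  · obtain ⟨h1, h2⟩ := hS g ⟨u, hu⟩
    refine ⟨h1, ?_⟩
    have hu' : u ∈ S := hu
    simp only [dif_pos hu']
    rw [← h2]
    exact dif_pos h1
  · obtain ⟨u, rfl⟩ := hπ w
    exact ⟨u.1, u.2, dif_pos u.2⟩

theorem aeval_eq_value (θ : Rep G F m) (P : Poly F m) :
    MvPolynomial.aeval (Pool.Agent.X320.DS.gens θ) P = value θ P := by
  funext g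
  have h2 : (Pi.evalAlgHom F (fun _ : G => F) g) (MvPolynomial.aeval (Pool.Agent.X320.DS.gens θ) P) =
      MvPolynomial.aeval (fun s => Pool.Agent.X320.DS.gens θ s g) P := by
    rw [← AlgHom.comp_apply, MvPolynomial.comp_aeval]
    rfl
  refine h2.trans ?_
  rw [MvPolynomial.aeval_eq_eval]
  unfold value
  congr 1
  congr 1
  funext s
  rcases s with s | s <;> rfl

theorem value_mem (θ : Rep G F m) (P : Poly F m) :
    value θ P ∈ Pool.Agent.X320.DS.algT θ := by
  rw [← aeval_eq_value, Pool.Agent.X320.DS.algT, Algebra.adjoin_range_eq_range_aeval]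
  exact ⟨P, rfl⟩

theorem exists_value (θ : Rep G F m) {f : G → F} (hf : f ∈ Pool.Agent.X320.DS.algT θ) :
    ∃ P, f = value θ P := by
  rw [Pool.Agent.X320.DS.algT, Algebra.adjoin_range_eq_range_aeval] at hf
  obtain ⟨P, rfl⟩ := hf
  exact ⟨P, aeval_eq_value θ P⟩

end

/-- the set of the places with property `P` has lower density at least `δ` -/
def LowerDensityGe {K : Type} [Field K] [NumberField K] (P : HeightOneSpectrum (𝓞 K) → Prop) (δ : ℝ) : Prop :=
  ∀ᶠ N in atTop, δ ≤ dens P N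

theorem delta_ok {n : ℕ} (hn : 0 < n) {δ : ℝ} (hδ : 1 - 1 / (n : ℝ) ^ 2 < δ) : (1 - δ) * (n : ℝ) ^ 2 < 1 := by
  have hn1 : (0 : ℝ) < (n : ℝ) ^ 2 := by
    have : (0 : ℝ) < (n : ℝ) := by exact_mod_cast hn
    positivity
  have h1 : 1 - δ < 1 / (n : ℝ) ^ 2 := by linarith
  calc (1 - δ) * (n : ℝ) ^ 2 < 1 / (n : ℝ) ^ 2 * (n : ℝ) ^ 2 := mul_lt_mul_of_pos_right h1 hn1
    _ = 1 := by field_simp

section

variable {K : Type} [Field K] [NumberField K] {F : Type} [Field F] [CharZero F] [TopologicalSpace F]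
  [IsTopologicalRing F] [T2Space F] {n m : ℕ}

/-- polynomial dependence on an open subgroup -/
theorem dependence (hn : 0 < n) {ρ : GK K →* GL (Fin n) F} (hρc : Continuous ρ) (hρ : Semisimple ρ)
    {θ : GK K →* GL (Fin m) F} (hθ : Continuous θ)
    (X : Finset (MvPolynomial ((Fin m × Fin m) ⊕ (Fin m × Fin m)) F)) {δ : ℝ} (hδ : 1 - 1 / (n : ℝ) ^ 2 < δ)
    (h : LowerDensityGe (fun v : HeightOneSpectrum (𝓞 K) => ∀ σ, IsFrob v σ →
      ∃ P ∈ X, (ρ σ⁻¹ : Matrix (Fin n) (Fin n) F).trace = value θ P σ⁻¹) δ) :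
    ∃ H : Subgroup (GK K), H.Normal ∧ IsOpen (H : Set (GK K)) ∧
      ∃ φ : Fin n → Fin n → GK K → F, (∀ s t, φ s t ∈ Pool.Agent.X320.DS.algT θ) ∧
        ∀ g ∈ H, ∀ s t, (ρ g : Matrix (Fin n) (Fin n) F) s t = φ s t g := by
  obtain ⟨H0, hH0, φ, hφ1, hφ2⟩ := Pool.Agent.X320.DS.alg_dep hρc hρ (Nat.cast_ne_zero.2 (Nat.factorial_ne_zero n))
    hθ (fun P : X => value θ P.1) (fun P => value_mem θ P.1) (delta_ok hn hδ) _ h (fun v hv σ hσ => by
      obtain ⟨P, hP, h1⟩ := hv σ hσ
      exact ⟨⟨P, hP⟩, h1⟩)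
  obtain ⟨U, hU⟩ := ProfiniteGrp.exist_openNormalSubgroup_sub_open_nhds_of_one hH0 H0.one_mem
  exact ⟨U.toSubgroup, U.isNormal', U.isOpen', φ, hφ1, fun g hg => hφ2 g (hU hg)⟩

theorem subquotient {ρ : GK K →* GL (Fin n) F} (hρc : Continuous ρ) (hρ : Irreducible ρ)
    {θ : GK K →* GL (Fin m) F} (hθ : Continuous θ)
    (X : Finset (MvPolynomial ((Fin m × Fin m) ⊕ (Fin m × Fin m)) F)) {δ : ℝ} (hδ : 1 - 1 / (n : ℝ) ^ 2 < δ)
    (h : LowerDensityGe (fun v : HeightOneSpectrum (𝓞 K) => ∀ σ, IsFrob v σ →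
      ∃ P ∈ X, (ρ σ⁻¹ : Matrix (Fin n) (Fin n) F).trace = value θ P σ⁻¹) δ) :
    ∃ H : Subgroup (GK K), H.Normal ∧ IsOpen (H : Set (GK K)) ∧ ∃ a b, IsSubquotient ρ θ H a b := by
  have hss : Semisimple ρ := fun W hW => by
    rcases hρ.2 W hW with rfl | rfl
    · exact ⟨⊤, fun _ _ _ => Submodule.mem_top, isCompl_bot_top⟩
    · refine ⟨⊥, fun g w hw => ?_, isCompl_top_bot⟩
      rw [Submodule.mem_bot] at hw ⊢
      rw [hw, Matrix.mulVec_zero]
  obtain ⟨H, hHn, hHo, φ, hφ1, hφ2⟩ := dependence hρ.1 hρc hss hθ X hδ h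
  have : Finite (GK K ⧸ H) := Subgroup.quotient_finite_of_isOpen _ hHo
  obtain ⟨a, b, S, π, hπ, hS⟩ := Pool.Agent.X320.DS.tannaka hρ.1 ρ hρ.2 θ H φ hφ1 hφ2
  exact ⟨H, hHn, hHo, a, b, isSubquotient_iff _ _ _ _ _ ⟨S, π, hπ, hS⟩⟩

/-- a character as a representation -/
noncomputable def toGL (χ : GK K →* Fˣ) : GK K →* GL (Fin 1) F :=
  (Units.map (Matrix.scalar (Fin 1) : F →+* Matrix (Fin 1) (Fin 1) F).toMonoidHom).comp χ

theorem toGL_apply (χ : GK K →* Fˣ) (g : GK K) (i j : Fin 1) :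
    (toGL χ g : Matrix (Fin 1) (Fin 1) F) i j = χ g := by
  have hi : i = j := Subsingleton.elim _ _
  subst hi
  show (Matrix.scalar (Fin 1) (χ g : F)) i i = _
  simp [Matrix.scalar_apply]

theorem toGL_continuous {χ : GK K →* Fˣ} (hχ : Continuous χ) : Continuous (toGL χ) := by
  have h1 : Continuous (Matrix.scalar (Fin 1) : F →+* Matrix (Fin 1) (Fin 1) F).toMonoidHom := by
    refine continuous_matrix fun i j => ?_
    have hi : i = j := Subsingleton.elim _ _
    subst hi
    show Continuous fun a : F => (Matrix.scalar (Fin 1) a) i i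
    simp only [Matrix.scalar_apply, Matrix.diagonal_apply_eq]
    exact continuous_id
  exact (Continuous.units_map _ h1).comp hχ

theorem twist {ρ : GK K →* GL (Fin n) F} (hρc : Continuous ρ) (hρ : Irreducible ρ)
    {χ : GK K →* Fˣ} (hχ : Continuous χ) (X : Finset (F × ℤ)) {δ : ℝ} (hδ : 1 - 1 / (n : ℝ) ^ 2 < δ)
    (h : LowerDensityGe (fun v : HeightOneSpectrum (𝓞 K) => ∀ σ, IsFrob v σ →
      ∃ x ∈ X, (ρ σ⁻¹ : Matrix (Fin n) (Fin n) F).trace = x.1 * ((χ σ⁻¹ ^ x.2 : Fˣ) : F)) δ) :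
    ∃ (e : ℤ) (H : Subgroup (GK K)), H.Normal ∧ IsOpen (H : Set (GK K)) ∧
      ∀ g ∈ H, (ρ g : Matrix (Fin n) (Fin n) F) = Matrix.scalar (Fin n) ((χ g ^ e : Fˣ) : F) := by
  classical
  obtain ⟨H, hHn, hHo, a, b, S, π, hlin, hS, hπ⟩ := subquotient (θ := toGL χ) hρc hρ (toGL_continuous hχ)
    (X.image fun x => MvPolynomial.C x.1 * (MvPolynomial.X (Sum.inl (0, 0)) ^ x.2.toNat *
      MvPolynomial.X (Sum.inr (0, 0)) ^ (-x.2).toNat)) hδ (by
    refine h.mono fun N hN => hN.trans ?_
    refine Pool.Agent.W528.Ord.dens_mono (fun v hv σ hσ => ?_) N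
    obtain ⟨x, hx, h1⟩ := hv σ hσ
    refine ⟨_, Finset.mem_image_of_mem _ hx, h1.trans ?_⟩
    unfold value
    rw [map_mul, map_mul, map_pow, map_pow, MvPolynomial.eval_C, MvPolynomial.eval_X, MvPolynomial.eval_X]
    simp only [Sum.elim_inl, Sum.elim_inr, toGL_apply]
    congr 1
    rcases Int.le_total 0 x.2 with h0 | h0
    · obtain ⟨k, hk⟩ := Int.eq_ofNat_of_zero_le h0
      rw [hk]
      simp
    · obtain ⟨k, hk⟩ := Int.eq_ofNat_of_zero_le (neg_nonneg.2 h0)
      have hk' : x.2 = -(k : ℤ) := by omega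
      rw [hk']
      simp)
  refine ⟨(a : ℤ) - b, H, hHn, hHo, fun g hg => ?_⟩
  have hact : ∀ T : (GK K ⧸ H) × (Fin a → Fin 1) × (Fin b → Fin 1) → F,
      tensorAction (toGL χ) g T = ((χ g ^ ((a : ℤ) - b) : Fˣ) : F) • T := by
    intro T
    funext ⟨q, i, j⟩
    unfold tensorAction
    have h1 : g⁻¹ • q = q := by
      obtain ⟨y, rfl⟩ := QuotientGroup.mk_surjective q
      show ((g⁻¹ * y : GK K) : GK K ⧸ H) = y
      rw [QuotientGroup.eq]
      have h2 := hHn.conj_mem g hg y⁻¹
      have e : (g⁻¹ * y)⁻¹ * y = y⁻¹ * g * y⁻¹⁻¹ := by group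
      rw [e]
      exact h2
    rw [Fintype.sum_subsingleton _ i, Fintype.sum_subsingleton _ j, h1]
    simp only [toGL_apply, Finset.prod_const, Finset.card_univ, Fintype.card_fin, Pi.smul_apply, smul_eq_mul]
    congr 1
    rw [_root_.zpow_sub, zpow_natCast, zpow_natCast, Units.val_mul, Units.val_pow_eq_pow_val, map_inv, ← inv_pow,
      Units.val_pow_eq_pow_val]
  have hmul : ∀ w : Fin n → F, (ρ g : Matrix (Fin n) (Fin n) F) *ᵥ w = ((χ g ^ ((a : ℤ) - b) : Fˣ) : F) • w := by
    intro w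
    obtain ⟨u, hu, rfl⟩ := hπ w
    have h0 : (fun _ => 0 : Tensors F H 1 a b) ∈ S ∧ π (fun _ => 0) = 0 := by
      have h1 := hlin (-1) u hu u hu
      have e : comb (-1) u u = fun _ => 0 := by
        funext p
        simp [comb]
      rw [e] at h1
      refine ⟨h1.1, h1.2.trans ?_⟩
      rw [neg_smul, one_smul, neg_add_cancel]
    have h2 := hlin ((χ g ^ ((a : ℤ) - b) : Fˣ) : F) u hu _ h0.1
    rw [← (hS g u hu).2, hact u, ← add_zero (((χ g ^ ((a : ℤ) - b) : Fˣ) : F) • π u), ← h0.2, ← h2.2]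
    congr 1
    funext p
    simp [comb]
  ext i j
  have h1 := congrFun (hmul (Pi.single j 1)) i
  rw [Matrix.mulVec_single_one] at h1
  rw [Matrix.scalar_apply, Matrix.diagonal_apply]
  refine h1.trans ?_
  rw [Pi.smul_apply, Pi.single_apply, smul_eq_mul, mul_ite, mul_one, mul_zero]

end

/-- For a set of places `v` of lower density at least `δ` the traces of `ρ (σ⁻¹)` for all Frobenius elements `σ`
at `v` are in the sets `A (σ⁻¹)`. -/
def FrobeniusTraces {K : Type} [Field K] [NumberField K] {F : Type} [Field F] {n : ℕ} (ρ : Rep (GK K) F n)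
    (A : GK K → Set F) (δ : ℝ) : Prop :=
  LowerDensityGe (fun v : HeightOneSpectrum (𝓞 K) => ∀ σ, IsFrob v σ → (mat ρ σ⁻¹).trace ∈ A σ⁻¹) δ

/-- the values at `g` of the polynomials in `X` in the entries of `θ (g)` and of its inverse -/
def polynomialValues {G F : Type} [Group G] [Field F] {m : ℕ} (θ : Rep G F m) (X : Finset (Poly F m)) (g : G) :
    Set F := {t | ∃ P ∈ X, t = value θ P g}

/-- the numbers `c χ (g) ^ e`, for the pairs `(c, e)` in `X` -/
def powerValues {G F : Type} [Group G] [Field F] (χ : G →* Fˣ) (X : Finset (F × ℤ)) (g : G) : Set F :=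
  {t | ∃ x ∈ X, t = x.1 * ((χ g ^ x.2 : Fˣ) : F)}

/-- on an open normal subgroup the entries of `ρ` are polynomials in the entries of `θ` and its inverse -/
def PotentiallyPolynomial {K F : Type} [Field K] [Field F] {n m : ℕ} (ρ : Rep (GK K) F n)
    (θ : Rep (GK K) F m) : Prop :=
  ∃ H : Subgroup (GK K), H.Normal ∧ IsOpen (H : Set (GK K)) ∧
    ∃ Q : Matrix (Fin n) (Fin n) (Poly F m), ∀ g ∈ H, mat ρ g = Q.map fun P => value θ P g

/-- `ρ` is a subquotient of `F[G_K/H] ⊗ W^{⊗ a} ⊗ (W^*)^{⊗ b}` for some open normal subgroup `H` and some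
`a`, `b` -/
def InTensorCategory {K F : Type} [Field K] [Field F] {n m : ℕ} (ρ : Rep (GK K) F n)
    (θ : Rep (GK K) F m) : Prop :=
  ∃ H : Subgroup (GK K), H.Normal ∧ IsOpen (H : Set (GK K)) ∧ ∃ a b, IsSubquotient ρ θ H a b

/-- for some integer `e` the twist `ρ ⊗ χ ^ (-e)` is trivial on an open normal subgroup -/
def PotentiallyPower {K F : Type} [Field K] [Field F] {n : ℕ} (ρ : Rep (GK K) F n) (χ : GK K →* Fˣ) : Prop :=
  ∃ (e : ℤ) (H : Subgroup (GK K)), H.Normal ∧ IsOpen (H : Set (GK K)) ∧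
    ∀ g ∈ H, mat ρ g = Matrix.scalar (Fin n) ((χ g ^ e : Fˣ) : F)

/-- **The Fontaine-Mazur conjecture and algebraic dependence of traces.** Let `K` be a number field, `F` a
Hausdorff topological field of characteristic zero (for instance `ℚ_p`), `ρ : G_K → GL_n(F)` continuous, and
`δ > 1 - 1/n²`.

1. Let `ρ` be semisimple, `n > 0`, and `θ : G_K → GL_m(F)` continuous. Let `X` be a finite set of polynomials in
`2 m ^ 2` variables, and suppose that for a set of places `v` of lower density at least `δ`, for each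
Frobenius element `σ` at `v` the trace of `ρ (σ⁻¹)` is the value of some `P` in `X` at the entries of `θ (σ⁻¹)` and
`θ (σ)`. Then there are an open normal subgroup `H` and a matrix `Q` of polynomials such that
`ρ (g) = Q (θ (g), θ (g)⁻¹)` for all `g` in `H`.
2. If `ρ` is irreducible, it is under the same hypothesis a subquotient of `F[G_K/H] ⊗ W^{⊗ a} ⊗ (W^*)^{⊗ b}` for
some open normal subgroup `H` and some `a` and `b`, where `W = F ^ m` with the action `θ`.
3. Let `ρ` be irreducible, `χ : G_K → Fˣ` a continuous character and `X` a finite set of pairs `(c, e)`. If for a set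
of places `v` of lower density at least `δ`, for each Frobenius element `σ` at `v` the trace of
`ρ (σ⁻¹)` is `c χ (σ⁻¹) ^ e` for some `(c, e)` in `X`, then there is an integer `e` such that `ρ ⊗ χ ^ (-e)` is
trivial on an open subgroup. -/
theorem result (K : Type) [Field K] [NumberField K] (F : Type) [Field F] [CharZero F] [TopologicalSpace F]
    [IsTopologicalRing F] [T2Space F] (n : ℕ) (ρ : Rep (GK K) F n) (hρ : Continuous ρ)
    (δ : ℝ) (hδ : 1 - 1 / (n : ℝ) ^ 2 < δ) :
    (0 < n → Semisimple ρ → ∀ (m : ℕ) (θ : Rep (GK K) F m), Continuous θ →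
      ∀ X, FrobeniusTraces ρ (polynomialValues θ X) δ → PotentiallyPolynomial ρ θ) ∧
    (Irreducible ρ → ∀ (m : ℕ) (θ : Rep (GK K) F m), Continuous θ →
      ∀ X, FrobeniusTraces ρ (polynomialValues θ X) δ → InTensorCategory ρ θ) ∧
    (Irreducible ρ → ∀ χ : GK K →* Fˣ, Continuous χ →
      ∀ X, FrobeniusTraces ρ (powerValues χ X) δ → PotentiallyPower ρ χ) := by
  refine ⟨fun hn hss m θ hθ X h => ?_, fun hirr m θ hθ X h => subquotient hρ hirr hθ X hδ h,
    fun hirr χ hχ X h => twist hρ hirr hχ X hδ h⟩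
  obtain ⟨H, hHn, hHo, φ, hφ1, hφ2⟩ := dependence hn hρ hss hθ X hδ h
  choose Q hQ using fun s t => exists_value θ (hφ1 s t)
  refine ⟨H, hHn, hHo, Matrix.of Q, fun g hg => ?_⟩
  ext s t
  refine (hφ2 g hg s t).trans ?_
  rw [hQ]
  rfl

end Pool.Agent.Results.MP_f68ac8_nt.AlgebraicDependence
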