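import Pool.Agent.X320.DS.Rel
import Pool.Agent.X320.DS.Mean

/-!
# Representations with few traces of Frobenius elements

Let `K` be a number field, `F` a Hausdorff topological field of characteristic zero (for instance `ℚ_p`) and
`ρ : G_K → GL_n(F)` a continuous semisimple representation. No condition on ramification or on the places above
`p` is needed.

* Let `θ` be a continuous homomorphism from `G_K` to a topological group `T` (for instance the cyclotomic
  character, or another Galois representation), and suppose that for a set of places `v` of lower density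
  `δ > 1 - 1/n²` the trace of `ρ (Frob_v)` is one of the values of `M` continuous functions on `T` at `θ (Frob_v)`.
  Then the image under `ρ` of the kernel of `θ` is finite of order at most `M ^ (n²) / (1 - (1 - δ) n²)`.
* In particular, if the traces of the Frobenius elements take only `M` values on a set of places of lower density
  `δ > 1 - 1/n²`, the image of `ρ` has at most `M ^ (n²) / (1 - (1 - δ) n²)` elements.
* Suppose that the traces of the Frobenius elements are in the ring of integers of a number field for almost all
  places, and that their conjugates are bounded in mean square. Then `ρ` has finite image. The eigenvalues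
  of the Frobenius elements need not be integral, and need not be bounded in any sense.

A representation with finite image occurs in the cohomology `H^0` of a finite étale `K`-scheme, so the
Fontaine-Mazur conjecture holds for the irreducible `ρ` in the second and third case. The third case is
what the Rankin-Selberg estimate gives for a `ρ` attached to a cuspidal automorphic representation with
integral Hecke eigenvalues whose conjugates are automorphic.

The bound `1 - 1/n²` is optimal: if a Heisenberg group of order `n³` is the Galois group of an extension of `K`, its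
irreducible representation of dimension `n` has trace zero at a set of places of density `1 - 1/n²`, and the
twists with characters of infinite order have the same property.
-/

set_option autoImplicit false
set_option linter.unusedSectionVars false

namespace Pool.Agent.Results.MP_f68ac8_nt.FewTraces

open NumberField IsDedekindDomain Filter Matrix
open Pool.Agent.W401.Cheb (GK IsFrob dens)

/-- representations of the group `G` by `n × n` matrices over `F` -/
abbrev Rep (G F : Type) [Group G] [Field F] (n : ℕ) : Type := G →* GL (Fin n) F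

/-- the matrix of `g` -/
abbrev mat {G F : Type} [Group G] [Field F] {n : ℕ} (ρ : Rep G F n) (g : G) : Matrix (Fin n) (Fin n) F :=
  (ρ g : Matrix (Fin n) (Fin n) F)

/-- the subspace `W` is stable under `ρ` -/
def Stable {G F : Type} [Group G] [Field F] {n : ℕ} (ρ : Rep G F n) (W : Submodule F (Fin n → F)) : Prop :=
  ∀ g, ∀ w ∈ W, mat ρ g *ᵥ w ∈ W

/-- `ρ` is semisimple: every stable subspace has a stable complement -/
def Semisimple {G F : Type} [Group G] [Field F] {n : ℕ} (ρ : Rep G F n) : Prop :=
  ∀ W, Stable ρ W → ∃ W', Stable ρ W' ∧ IsCompl W W'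

/-- For a set of places `v` of lower density at least `δ` the traces of `ρ (σ⁻¹)` for all Frobenius elements `σ`
at `v` are in the sets `A (σ⁻¹)`. -/
def FrobeniusTraces {K : Type} [Field K] [NumberField K] {F : Type} [Field F] {n : ℕ} (ρ : Rep (GK K) F n)
    (A : GK K → Set F) (δ : ℝ) : Prop :=
  ∀ᶠ N in atTop, δ ≤
    dens (fun v : HeightOneSpectrum (𝓞 K) => ∀ σ, IsFrob v σ → (mat ρ σ⁻¹).trace ∈ A σ⁻¹) N

/-- the mean squares of all conjugates of the numbers `c v`, `v` outside `S`, are bounded -/
def MeanSquareBounded {K : Type} [Field K] [NumberField K] {E : Type} [Field E] [NumberField E]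
    (S : Set (HeightOneSpectrum (𝓞 K))) (c : HeightOneSpectrum (𝓞 K) → 𝓞 E) : Prop :=
  ∀ τ : E →+* ℂ, ∃ C : ℝ, ∀ N : ℕ,
    ∑ᶠ v ∈ {v : HeightOneSpectrum (𝓞 K) | v ∉ S ∧ Ideal.absNorm v.asIdeal ≤ N}, ‖τ (c v)‖ ^ 2 ≤
      C * Nat.primeCounting N

/-- the set `A` is finite and has at most `M ^ (n²) / (1 - (1 - δ) n²)` elements -/
def SmallSet {X : Type} (A : Set X) (M n : ℕ) (δ : ℝ) : Prop :=
  A.Finite ∧ (A.ncard : ℝ) ≤ (M : ℝ) ^ (n ^ 2) / (1 - (1 - δ) * n ^ 2)

/-- **Relative version.** The image of the kernel of `θ` is finite, if the traces of Frobenius elements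
are given by `M` continuous functions of `θ`. -/
def Relative {K F : Type} [Field K] [NumberField K] [Field F] [TopologicalSpace F] {n : ℕ}
    (ρ : Rep (GK K) F n) : Prop :=
  ∀ (T : Type) [Group T] [TopologicalSpace T] (θ : GK K →* T), Continuous θ → ∀ (M : ℕ) (f : Fin M → T → F),
    (∀ j, Continuous (f j)) → ∀ δ : ℝ, (1 - δ) * n ^ 2 < 1 →
      FrobeniusTraces ρ (fun g => {t | ∃ j, t = f j (θ g)}) δ → SmallSet (ρ '' θ.ker) M n δ

/-- **Mean squares.** The image is finite, if the traces of Frobenius elements are integral outside `S` and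
bounded in mean square at all embeddings. -/
def MeanSquares {K F : Type} [Field K] [NumberField K] [Field F] {n : ℕ} (ρ : Rep (GK K) F n) : Prop :=
  ∀ (E : Type) [Field E] [NumberField E] (ψ : E →+* F) (S : Set (HeightOneSpectrum (𝓞 K)))
    (c : HeightOneSpectrum (𝓞 K) → 𝓞 E), S.Finite →
    (∀ v, v ∉ S → ∀ σ, IsFrob v σ → (mat ρ σ⁻¹).trace = ψ (c v)) → MeanSquareBounded S c →
    (Set.range ρ).Finite

/-- **Few traces.** Let `K` be a number field, `F` a Hausdorff topological field of characteristic zero
and `ρ : G_K → GL_n(F)` continuous and semisimple.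

1. Let `θ : G_K → T` be a continuous homomorphism, and `f_1, …, f_M` continuous functions on `T`. If for a set of
places `v` of lower density at least `δ > 1 - 1/n²` the trace of `ρ (σ⁻¹)` is one of the `f_j (θ (σ⁻¹))`, for each
Frobenius element `σ` at `v`, then the image of the kernel of `θ` under `ρ` is finite and has
at most `M ^ (n²) / (1 - (1 - δ) n²)` elements.
2. If for a set of places `v` of lower density at least `δ > 1 - 1/n²` the trace of `ρ (σ⁻¹)` is in the finite set `X`,
for each Frobenius element `σ` at `v`, then the image of `ρ` is finite and has at most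
`|X| ^ (n²) / (1 - (1 - δ) n²)` elements.
3. If the traces of the `ρ (σ⁻¹)` for the Frobenius elements at places outside a finite set are algebraic integers in a
number field, bounded in mean square at all embeddings, then the image of `ρ` is finite. -/
theorem result (K : Type) [Field K] [NumberField K] (F : Type) [Field F] [CharZero F] [TopologicalSpace F]
    [IsTopologicalRing F] [T2Space F] (n : ℕ) (ρ : Rep (GK K) F n) (hρ : Continuous ρ) (hss : Semisimple ρ) :
    Relative ρ ∧
    (∀ (X : Finset F) (δ : ℝ), (1 - δ) * n ^ 2 < 1 → FrobeniusTraces ρ (fun _ => X) δ →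
      SmallSet (Set.range ρ) X.card n δ) ∧
    MeanSquares ρ := by
  classical
  have hn : ((n.factorial : ℕ) : F) ≠ 0 := Nat.cast_ne_zero.2 (Nat.factorial_ne_zero n)
  have htr : Continuous fun g => (mat ρ g).trace := (Units.continuous_val.comp hρ).matrix_trace
  have h2 : ∀ (X : Finset F) (δ : ℝ), (1 - δ) * n ^ 2 < 1 → FrobeniusTraces ρ (fun _ => X) δ →
      SmallSet (Set.range ρ) X.card n δ := by
    intro X δ hδ h
    obtain ⟨h1, h2⟩ := Pool.Agent.X320.DS.rel hss hn (ι := X) (fun x _ => x.1)
      (fun x => isClosed_singleton.preimage htr) ⊤ (fun _ _ _ _ => rfl) hδ _ h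
      (fun v hv σ hσ => ⟨⟨_, hv σ hσ⟩, rfl⟩)
    have e : ρ '' ((⊤ : Subgroup (GK K)) : Set (GK K)) = Set.range ρ := by
      rw [Subgroup.coe_top, Set.image_univ]
    rw [e] at h1 h2
    rw [Fintype.card_coe] at h2
    refine ⟨h1, ?_⟩
    rw [le_div_iff₀ (by linarith)]
    exact h2
  refine ⟨?_, h2, ?_⟩
  · intro T _ _ θ hθ M f hf δ hδ h
    obtain ⟨h1, h2⟩ := Pool.Agent.X320.DS.rel hss hn (ι := Fin M) (fun j g => f j (θ g))
      (fun j => isClosed_eq htr ((hf j).comp hθ)) θ.ker
      (fun j x ν hν => by rw [map_mul, MonoidHom.mem_ker.1 hν, mul_one]) hδ _ h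
      (fun v hv σ hσ => hv σ hσ)
    rw [Fintype.card_fin] at h2
    refine ⟨h1, ?_⟩
    rw [le_div_iff₀ (by linarith)]
    exact h2
  · intro E _ _ ψ S c hS hc hms
    rcases Nat.eq_zero_or_pos n with rfl | hn0
    · exact Set.toFinite _
    have hn1 : (1 : ℝ) ≤ (n : ℝ) := by exact_mod_cast hn0
    have hn2 : (1 : ℝ) ≤ (n : ℝ) ^ 2 := by nlinarith
    have hδ1 : 1 - 1 / (2 * (n : ℝ) ^ 2) < 1 := by
      have : 0 < 1 / (2 * (n : ℝ) ^ 2) := by positivity
      linarith
    obtain ⟨Y, hY⟩ := Pool.Agent.X320.DS.few_values hS hms hδ1
    refine (h2 (Y.image fun y : 𝓞 E => ψ y) (1 - 1 / (2 * (n : ℝ) ^ 2)) ?_ ?_).1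
    · have h1 : (1 - (1 - 1 / (2 * (n : ℝ) ^ 2))) * (n : ℝ) ^ 2 = 1 / 2 := by
        field_simp
        ring
      rw [h1]
      norm_num
    · refine hY.mono fun N hN => hN.trans ?_
      refine Pool.Agent.W528.Ord.dens_mono (fun v hv σ hσ => ?_) N
      rw [hc v hv.1 σ hσ]
      exact Finset.mem_coe.2 (Finset.mem_image_of_mem _ hv.2)

end Pool.Agent.Results.MP_f68ac8_nt.FewTraces
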