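import Pool.Agent.W401.Cheb.AbsDefs
import Pool.Agent.X289.PA.Main

/-!
# The Fontaine-Mazur conjecture for limits and families of Artin and CM representations

Let `K` be a number field and `F` a nonarchimedean field of characteristic zero (for instance `ℚ_p`, a finite extension
of `ℚ_p`, or `ℂ_p`), and let `ρ : G_K → GL_n(F)` be continuous and semisimple. A representation is called potentially
abelian if the image of some subgroup of finite index is commutative; for instance this holds for all representations
with finite image, and for everything that is induced from Hecke characters (CM type). We show that `ρ` is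
potentially abelian in each of the following cases.

1. (Families.) `ρ` is a member of a family over an arbitrary commutative ring `A`, in the Zariski closure of the members
which are potentially abelian. So if a Zariski dense set of members of a family is potentially abelian (for instance
has finite image) then all members are.
2. (One-parameter families.) `ρ` is a member of a family over a Noetherian domain, and there are infinitely many prime
ideals of height one that belong to potentially abelian members. For the Galois representations of dimension two
of Hida families this is the theorem that a family with infinitely many members of CM type or of weight one is of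
CM type.
3. (Limits.) The trace of `ρ` is a pointwise limit of the traces of potentially abelian representations.

Nothing is assumed on ramification, the primes of ramification of the members may vary. The members (apart from
`ρ` itself) need not be continuous, there is no bound for the orders of their images, and the fields over which they
become abelian may vary: there is no bound for their degrees or discriminants.

If `ρ` is irreducible, unramified at almost all places and de Rham at the places above `p`, and potentially abelian, the
conjecture of Fontaine and Mazur is known to hold for `ρ` (by the theorems of Serre and Henniart on abelian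
representations and the theory of complex multiplication, see the paper of Fontaine and Mazur). So the conjecture
holds for all `ρ` as in 1, 2 or 3, in particular for all `p`-adic limits of representations with finite image.

Idea of the proof. There is a number `m`, which depends only on `n`, such that `x ^ m` and `y ^ m` commute for all `x`, `y`
in the image of a semisimple potentially abelian representation of dimension `n` over any field of
characteristic zero: the powers `x ^ (n!)` fix the weight spaces of an abelian normal subgroup of finite index, and on
a weight space the image is, up to scalars, a finite group, to which Jordan's theorem can be applied. So the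
functions `tr (g x ^ m y ^ m) - tr (g y ^ m x ^ m)` vanish at these representations, and therefore at `ρ`. As `ρ`
is semisimple, `x ^ m` and `y ^ m` commute for all `x`, `y` in the image of `ρ`. Near the identity a matrix over `F` which
commutes with `x ^ m` commutes with `x`; so the image of a small open subgroup is commutative.
-/

set_option autoImplicit false

namespace Pool.Agent.Results.MP_f68ac8_nt.LimitsOfPotentiallyAbelian

open Filter Topology Matrix
open Pool.Agent.W401.Cheb (GK)

section

variable {G : Type} [Group G] {n : ℕ} {E : Type} [Field E]

/-- the trace of the matrix of `g` -/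
abbrev tr (σ : G →* GL (Fin n) E) (g : G) : E := (σ g : Matrix (Fin n) (Fin n) E).trace

/-- `σ` is semisimple: every stable subspace has a stable complement -/
def Semisimple (σ : G →* GL (Fin n) E) : Prop :=
  ∀ W : Submodule E (Fin n → E), (∀ g, ∀ w ∈ W, (σ g : Matrix (Fin n) (Fin n) E) *ᵥ w ∈ W) →
    ∃ W' : Submodule E (Fin n → E), (∀ g, ∀ w ∈ W', (σ g : Matrix (Fin n) (Fin n) E) *ᵥ w ∈ W') ∧
      IsCompl W W'

/-- `σ` is potentially abelian: the image of some subgroup of finite index is commutative -/
def PotentiallyAbelian (σ : G →* GL (Fin n) E) : Prop :=
  ∃ H : Subgroup G, H.FiniteIndex ∧ ∀ a ∈ H, ∀ b ∈ H, σ a * σ b = σ b * σ a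

/-- `φ : A → E` is a potentially abelian point of the family with the trace function `T : G → A`: the function
`φ (T g)` is the trace of a semisimple potentially abelian representation of dimension `n` -/
def IsPoint (n : ℕ) {A : Type} [CommRing A] (T : G → A) (φ : A →+* E) : Prop :=
  ∃ σ : G →* GL (Fin n) E, Semisimple σ ∧ PotentiallyAbelian σ ∧ ∀ g, tr σ g = φ (T g)

end

section

variable {K : Type} [Field K] {F : Type} [Field F] {n : ℕ}

/-- There is an open normal subgroup `H = G_L` of `G_K` such that the image of `H` is commutative; if `F` is
algebraically closed, the restriction of `ρ` to `H` is (after a change of basis) a direct sum of characters. -/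
def AbelianOverFiniteExtension (ρ : GK K →* GL (Fin n) F) : Prop :=
  ∃ H : Subgroup (GK K), H.Normal ∧ IsOpen (H : Set (GK K)) ∧ (∀ a ∈ H, ∀ b ∈ H, ρ a * ρ b = ρ b * ρ a) ∧
    (IsAlgClosed F → ∃ P : GL (Fin n) F, ∀ a ∈ H, ∃ d : Fin n → F, (ρ a : Matrix (Fin n) (Fin n) F) =
      (P : Matrix (Fin n) (Fin n) F) * Matrix.diagonal d * ((P⁻¹ : GL (Fin n) F) : Matrix (Fin n) (Fin n) F))

/-- `ρ` is the member at `f : A → F` of a family over `A` with trace function `T`, and `f` is in the Zariski closure
of the potentially abelian points -/
def InClosure (ρ : GK K →* GL (Fin n) F) {A : Type} [CommRing A] (T : GK K → A) (f : A →+* F) : Prop :=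
  (∀ g, f (T g) = tr ρ g) ∧
    ∀ a : A, (∀ (E : Type) [Field E] [CharZero E] [IsAlgClosed E] (φ : A →+* E), IsPoint n T φ → φ a = 0) →
      f a = 0

/-- the prime ideals of height one of the domain `A` which are the kernels of potentially abelian points -/
def heightOnePoints (n : ℕ) {A : Type} [CommRing A] (T : GK K → A) : Set (Ideal A) :=
  {P | P.IsPrime ∧ P ≠ ⊥ ∧ (∀ Q : Ideal A, Q.IsPrime → Q < P → Q = ⊥) ∧
    ∃ (E : Type) (_ : Field E) (_ : CharZero E) (_ : IsAlgClosed E) (φ : A →+* E),
      IsPoint n T φ ∧ RingHom.ker φ = P}

/-- `t : G_K → F` is the trace of a semisimple potentially abelian representation of dimension `n` over some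
algebraically closed field which contains `F` -/
def IsTrace (n : ℕ) (t : GK K → F) : Prop :=
  ∃ (E : Type) (_ : Field E) (_ : CharZero E) (_ : IsAlgClosed E) (j : F →+* E), IsPoint n t j

end

theorem result (K : Type) [Field K] [NumberField K] (F : Type) [NormedField F] [IsUltrametricDist F] [CharZero F]
    (n : ℕ) (ρ : GK K →* GL (Fin n) F) (hρ : Continuous ρ) (hs : Semisimple ρ) :
    (∀ (A : Type) [CommRing A] (T : GK K → A) (f : A →+* F), InClosure ρ T f → AbelianOverFiniteExtension ρ) ∧
    (∀ (A : Type) [CommRing A] [IsDomain A] [IsNoetherianRing A] (T : GK K → A) (f : A →+* F),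
      (∀ g, f (T g) = tr ρ g) → (heightOnePoints n T).Infinite → AbelianOverFiniteExtension ρ) ∧
    (∀ (ι : Type) (l : Filter ι) [l.NeBot] (t : ι → GK K → F), (∀ i, IsTrace n (t i)) →
      (∀ g, Tendsto (fun i => t i g) l (𝓝 (tr ρ g))) → AbelianOverFiniteExtension ρ) := by
  obtain ⟨m, hm, hlaw⟩ := Pool.Agent.X289.PA.trace_law n
  refine ⟨fun A _ T f ⟨hT, hcl⟩ => ?_, fun A _ _ _ T f hT hinf => ?_, fun ι l _ t ht hlim => ?_⟩
  · refine Pool.Agent.X289.PA.concl hm ρ hρ hs fun g x y => ?_
    have h1 := hcl (T (g * (x ^ m * y ^ m)) - T (g * (y ^ m * x ^ m))) fun E _ _ _ φ hφ => by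
      rw [map_sub, hlaw _ A E T φ hφ g x y, sub_self]
    rw [map_sub, hT, hT, sub_eq_zero] at h1
    exact h1
  · refine Pool.Agent.X289.PA.concl hm ρ hρ hs fun g x y => ?_
    have h0 : T (g * (x ^ m * y ^ m)) - T (g * (y ^ m * x ^ m)) = 0 := by
      by_contra hne
      refine hinf ((Pool.Agent.X289.PA.finite_ht hne).subset ?_)
      rintro P ⟨hP, hP0, hP1, E, i1, i2, i3, φ, hφ, rfl⟩
      refine ⟨⟨hP, hP0, hP1⟩, ?_⟩
      rw [RingHom.mem_ker, map_sub, hlaw _ A E T φ hφ g x y, sub_self]
    have h1 := congrArg f h0
    rw [map_sub, map_zero, hT, hT, sub_eq_zero] at h1
    exact h1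
  · refine Pool.Agent.X289.PA.concl hm ρ hρ hs fun g x y => ?_
    refine tendsto_nhds_unique (hlim (g * (x ^ m * y ^ m))) ((hlim (g * (y ^ m * x ^ m))).congr fun i => ?_)
    obtain ⟨E, i1, i2, i3, j, hj⟩ := ht i
    exact j.injective (hlaw _ F E (t i) j hj g x y).symm

end Pool.Agent.Results.MP_f68ac8_nt.LimitsOfPotentiallyAbelian
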